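import Pool.Agent.Y6.F.Stm2
import Pool.Agent.Y5.EM.PH3b
import Pool.Agent.Y67.EF.WTM
import Pool.Agent.Y708.EM.KERM
import Pool.Agent.Y154.EM.UNI
import Pool.Agent.Y26.EM.PH2
import Pool.Agent.Y419.EM.Ph1
import Pool.Agent.Y812.EM.Frame
import Pool.Agent.Y710.EF.CODE

/-! Uniqueness and energy conservation for all skew-adjoint Fourier multipliers (job EF-UNIQ). -/

open Set Filter Topology
open scoped ComplexConjugate

set_option autoImplicit false

namespace Pool.Agent.Y576.EF.Uniq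

open Pool.Agent.Y6.F
open Pool.Agent.Y6.M (qd mq Kz Ker Adm Dat TSol Wt KSol cX cY Uth εc x0 Mains MDat Z3 C3 Coef dt cr
  cj kc nsq len adv leray Kop IsField IsSol energy enstr Md hs br Frame cK sgz amp fld S_PH1 S_PH2)
open Pool.Agent.Y5.EM.PH3 (dt_eq dt_sub_left nsq_one amp_bdq energy_fld)
open Pool.Agent.Y708.EM.KERM (real' anti' bdd' two cK_ne)
open Pool.Agent.Y710.EF.CODE (sgz_neg sgz_one)

/-- the sign of the frequency -/
noncomputable def sg (i : Md) : ℝ := (sgz i.1.1 : ℝ)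

lemma sg_sq (i : Md) : sg i ^ 2 = 1 := by
  unfold sg
  rcases sgz_one i.1.2 with h | h
  · rw [h]; norm_num
  · rw [h]; norm_num

lemma sg_ne (i : Md) : sg i ≠ 0 := by
  intro h
  have := sg_sq i
  rw [h] at this
  norm_num at this

lemma sg_br (i : Md) : sg (br i) = -sg i := by
  unfold sg br
  simp only
  rw [sgz_neg]
  push_cast
  ring

lemma br_br (i : Md) : br (br i) = i := by
  obtain ⟨⟨k, hk⟩, s⟩ := i
  unfold br
  simp only [neg_neg]

/-- the kernel without main modes -/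
lemma ker (hC : S_CODE) {h : Md → C3} (hF : Frame h) : Ker cd br sg (cK h) := by
  obtain ⟨-, C2, C3, C4, -, -⟩ := hC
  refine ⟨br_br, C3, sg_br, fun i => Or.inr (sg_sq i), ?_, real' h hF, anti' h hF, bdd' h hF,
    ⟨2, ?_⟩, ?_, ?_⟩
  · intro m
    have h1 : {i : Md | cd i ≤ m} = cd ⁻¹' (Set.Iic m) := rfl
    rw [h1]
    refine (Set.finite_Iic m).preimage' fun b _ => ?_
    by_cases hb : ∃ i, cd i = b
    · obtain ⟨i, hi⟩ := hb
      refine (Set.toFinite {i, br i}).subset ?_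
      intro j hj
      have h2 : cd j = b := hj
      rcases C2 i j (hi.trans h2.symm) with h3 | h3
      · rw [h3]; exact Set.mem_insert _ _
      · rw [h3]; exact Set.mem_insert_of_mem _ rfl
    · have h2 : cd ⁻¹' {b} = ∅ := by
        ext j
        simp only [Set.mem_preimage, Set.mem_singleton_iff, Set.mem_empty_iff_false, iff_false]
        exact fun h3 => hb ⟨j, h3⟩
      rw [h2]
      exact Set.finite_empty
  · intro i a
    constructor
    · refine two (i.1.1 - a.1.1) _ fun b hb => ?_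
      have h1 := cK_ne h i a b hb
      rw [← h1, add_sub_cancel_left]
    · refine two (i.1.1 - a.1.1) _ fun b hb => ?_
      have h1 := cK_ne h i b a hb
      rw [← h1, add_sub_cancel_right]
  · intro i
    refine Set.finite_empty.subset ?_
    rintro p ⟨h1, -, -⟩
    exact absurd h1 (sg_ne p.1)
  · intro i a b hi
    exact absurd hi (sg_ne i)

lemma wts (hC : S_CODE) {h : Md → C3} (hF : Frame h) : Wt cd sg αM (cK h) NM := by
  obtain ⟨-, -, -, C4, -, -⟩ := hC
  refine ⟨Pool.Agent.Y67.EF.WTM.NM_one, ⟨18 * Real.pi, 1, Pool.Agent.Y67.EF.WTM.size hF⟩,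
    ⟨3, Pool.Agent.Y67.EF.WTM.summ⟩, ⟨0, 0, fun i hi => absurd hi (sg_ne i)⟩,
    ⟨0, 0, fun i hi => absurd hi (sg_ne i)⟩, ⟨2, fun j _ => ?_⟩⟩
  have h2 : NM j ≤ (cd j : ℝ) := by
    unfold NM
    exact_mod_cast C4 j
  refine h2.trans ?_
  have h3 : cd j ≤ 2 ^ (cd j + 1) :=
    (Nat.lt_two_pow_self).le.trans (Nat.pow_le_pow_right (by norm_num) (by omega))
  exact_mod_cast h3

/-- the speed of a mode -/
noncomputable def om (m n : Z3 → ℝ) (i : Md) : ℝ := m i.1.1 + hs i.2 * n i.1.1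

lemma om_br {m n : Z3 → ℝ} (hm : ∀ k, m (-k) = -m k) (hn : ∀ k, n (-k) = -n k) (i : Md) :
    om m n (br i) = -om m n i := by
  unfold om br
  simp only
  rw [hm, hn]
  ring

/-- the speed as a function of the code -/
noncomputable def Sp (m n : Z3 → ℝ) (c : ℕ) : ℝ :=
  open Classical in
  if hc : ∃ i : Md, cd i = c then om m n hc.choose * sg hc.choose else 0

lemma Sp_cd (hC : S_CODE) {m n : Z3 → ℝ} (hm : ∀ k, m (-k) = -m k) (hn : ∀ k, n (-k) = -n k)
    (i : Md) : Sp m n (cd i) * sg i = om m n i := by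
  have hc : ∃ j : Md, cd j = cd i := ⟨i, rfl⟩
  unfold Sp
  rw [dif_pos hc]
  obtain ⟨-, C2, -, -, -, -⟩ := hC
  have h1 := sg_sq i
  rcases C2 i hc.choose hc.choose_spec.symm with h2 | h2
  · rw [h2]
    linear_combination om m n i * h1
  · rw [h2, om_br hm hn, sg_br]
    linear_combination om m n i * h1

/-- the amplitude of the right hand side -/
lemma rhs_amp (hC : S_CODE) {h : Md → C3} (hF : Frame h) (h1 : S_PH1) (h2 : S_PH2)
    {m n : Z3 → ℝ} (hm : ∀ k, m (-k) = -m k) (hn : ∀ k, n (-k) = -n k) {V : Coef}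
    (hV : IsField V) (i : Md) :
    dt (fun j => Kop m n V i.1.1 j - leray i.1.1 (adv V i.1.1) j) (cj (h i)) =
      Kz (Sp m n) cd sg (amp h V) i + qd (cK h) (amp h V) i := by
  obtain ⟨-, -, -, -, -, -, p7, p8, -, -⟩ := h1 h hF
  rw [dt_sub_left, p7 _ _ _ _ (hV.div _), p8, ← h2 h hF V hV i]
  unfold Kz
  rw [Sp_cd hC hm hn]
  unfold om
  ring

/-- from fields to amplitudes -/
lemma ksol_of (hC : S_CODE) {h : Md → C3} (hF : Frame h) (h1 : S_PH1) (h2 : S_PH2)
    {m n : Z3 → ℝ} (hm : ∀ k, m (-k) = -m k) (hn : ∀ k, n (-k) = -n k) {T : ℝ}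
    {W : ℝ → Coef} (hW : IsSol m n T W) :
    KSol (Sp m n) cd br sg (cK h) NM T (fun i t => amp h (W t) i) := by
  obtain ⟨p1, p2, p3, p4, p5, p6, p7, p8, p9, p10⟩ := h1 h hF
  refine ⟨?_, ?_, ?_⟩
  · intro i t ht
    exact p3 (W t) (hW.field t ht).real i
  · intro i t ht
    have e1 := rhs_amp hC hF h1 h2 hm hn (hW.field t ht) i
    have e3 : (fun a => (fun i t => amp h (W t) i) a t) = amp h (W t) := rfl
    rw [e3, ← e1]
    have e2 : (fun s => amp h (W s) i) = fun s => W s i.1.1 0 * cj (h i) 0 +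
        W s i.1.1 1 * cj (h i) 1 + W s i.1.1 2 * cj (h i) 2 := by
      funext s
      unfold amp
      rw [dt_eq]
    rw [e2, dt_eq]
    have d := fun j => (hW.eqn i.1.1 i.1.2 j t ht).mul_const (cj (h i) j)
    exact ((d 0).add (d 1)).add (d 2)
  · intro q T' hT'
    obtain ⟨M, hM⟩ := hW.reg (2 * q) T' hT'
    exact ⟨3 * M, fun t ht i => amp_bdq hF fun j => hM t ht _ j⟩

theorem of_CODE (hC : S_CODE) : S_UNIQ := by
  intro m n T hm hn
  obtain ⟨h, hF⟩ := Pool.Agent.Y812.EM.Frame.t_FRAME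
  have h1 : S_PH1 := Pool.Agent.Y419.EM.Ph1.t_PH1
  have h2 : S_PH2 := Pool.Agent.Y26.EM.PH2.t_PH2 h1
  obtain ⟨u1, u2⟩ := Pool.Agent.Y154.EM.UNI.t_UNI Md cd br sg (cK h) (Sp m n) αM NM T
    (ker hC hF) (wts hC hF)
  constructor
  · intro V W hV hW h0 t ht
    have e0 : ∀ i, amp h (V 0) i = amp h (W 0) i := fun i => by rw [h0]
    have e1 := u2 _ _ (ksol_of hC hF h1 h2 hm hn hV) (ksol_of hC hF h1 h2 hm hn hW) e0
    have e2 := (h1 h hF).2.1 (V t) (hV.field t ht).zero (hV.field t ht).div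
    have e3 := (h1 h hF).2.1 (W t) (hW.field t ht).zero (hW.field t ht).div
    rw [← e2, ← e3]
    congr 1
    funext i
    exact e1 i t ht
  · intro V hV t ht
    have hk := ksol_of hC hF h1 h2 hm hn hV
    have ht0 : (0 : ℝ) ∈ Ico 0 T := ⟨le_rfl, ht.1.trans_lt ht.2⟩
    obtain ⟨s1, s2⟩ := u1 _ hk t ht
    obtain ⟨s3, -⟩ := u1 _ hk 0 ht0
    have e2 := (h1 h hF).2.1 (V t) (hV.field t ht).zero (hV.field t ht).div
    have e3 := (h1 h hF).2.1 (V 0) (hV.field 0 ht0).zero (hV.field 0 ht0).div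
    rw [← e2, ← e3, energy_fld hF h1 s1, energy_fld hF h1 s3]
    exact s2

theorem t_UNIQ : Pool.Agent.Y6.F.S_UNIQ := of_CODE Pool.Agent.Y710.EF.CODE.t_CODE

end Pool.Agent.Y576.EF.Uniq
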